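import Pool.Agent.Q156.HN.Fin

set_option autoImplicit false

open Filter Topology

namespace Pool.Agent.Results.MP_3166d6_co.RandomSubsets

open Pool.Agent.Q156.HN

/-- **The discrepancy of random subsets of the hypercube neighbourhoods is of order `√n`.**
There is an absolute constant `C` such that every realisation has discrepancy at most `C √n`, and
for `n ≥ 400` the discrepancy is at least `√n / 8` with probability at least
`1 - 2 ^ (- 2 ^ n)`. In particular `disc = Θ(√n)` with probability tending to `1`. -/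
theorem result : ∃ C : ℝ, 0 < C ∧
    (∀ n : ℕ, 1 ≤ n → ∀ S ∈ fam n, (disc S : ℝ) ≤ C * Real.sqrt n) ∧
    (∀ n : ℕ, 400 ≤ n →
      1 - (1 / 2 : ℝ) ^ (2 ^ n) ≤ prob n (fun S => Real.sqrt n / 8 ≤ (disc S : ℝ))) ∧
    Tendsto (fun n : ℕ => prob n (fun S =>
      Real.sqrt n / 8 ≤ (disc S : ℝ) ∧ (disc S : ℝ) ≤ C * Real.sqrt n)) atTop (𝓝 1) :=
  main

end Pool.Agent.Results.MP_3166d6_co.RandomSubsets
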